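import Pool.Agent.Lib.MP_004c47_gt.MainC45
import Pool.Agent.Lib.MP_004c47_gt.PaW2

/-! The mapping torus of the pseudo-Anosov braid `σ₁² σ₂⁻²` on the four-punctured sphere has an
exhausting tower of finite regular covers, cofinal among all finite covers, along which the torsion
of the first homology grows subexponentially in the degree. -/

namespace Pool.Agent.Results.MP_004c47_gt.CofinalTower

theorem result :
    ∃ (σ₁ σ₂ ψ : MulAut (FreeGroup (Fin 3))) (B : Set (FreeGroup (Fin 3))),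
      (σ₁ (FreeGroup.of 0) = FreeGroup.of 0 * FreeGroup.of 1 * (FreeGroup.of 0)⁻¹ ∧
        σ₁ (FreeGroup.of 1) = FreeGroup.of 0 ∧ σ₁ (FreeGroup.of 2) = FreeGroup.of 2) ∧
      (σ₂ (FreeGroup.of 0) = FreeGroup.of 0 ∧
        σ₂ (FreeGroup.of 1) = FreeGroup.of 1 * FreeGroup.of 2 * (FreeGroup.of 1)⁻¹ ∧
        σ₂ (FreeGroup.of 2) = FreeGroup.of 1) ∧
      ψ = σ₁ ^ 2 * σ₂⁻¹ ^ 2 ∧
      B = {FreeGroup.of 0, FreeGroup.of 1, FreeGroup.of 2,
        (FreeGroup.of 0 * FreeGroup.of 1 * FreeGroup.of 2)⁻¹} ∧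
      (∀ c ∈ B, IsConj (ψ c) c) ∧
      (∀ (x : FreeGroup (Fin 3)) (m : ℕ), 0 < m → IsConj ((ψ ^ m) x) x →
        ∃ c ∈ B, ∃ k : ℤ, IsConj x (c ^ k)) ∧
      ∃ N : ℕ → Subgroup (SemidirectProduct (FreeGroup (Fin 3)) (Multiplicative ℤ)
          (zpowersHom (MulAut (FreeGroup (Fin 3))) ψ)),
        (∀ i, (N i).Normal) ∧ (∀ i, (N i).FiniteIndex) ∧ (∀ i, N (i + 1) ≤ N i) ∧
        (⨅ i, N i) = ⊥ ∧
        Filter.Tendsto (fun i => (N i).index) Filter.atTop Filter.atTop ∧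
        (∀ H : Subgroup (SemidirectProduct (FreeGroup (Fin 3)) (Multiplicative ℤ)
          (zpowersHom (MulAut (FreeGroup (Fin 3))) ψ)), H.FiniteIndex → ∃ i, N i ≤ H) ∧
        (∀ i, Finite (CommGroup.torsion (Abelianization (N i)))) ∧
        Filter.Tendsto (fun i => Real.log (Nat.card (CommGroup.torsion (Abelianization (N i)))) /
          ((N i).index : ℝ)) Filter.atTop (nhds 0) := by
  have hB : ∀ c, c ∈ ({FreeGroup.of 0, FreeGroup.of 1, FreeGroup.of 2,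
      (FreeGroup.of 0 * FreeGroup.of 1 * FreeGroup.of 2)⁻¹} : Set (FreeGroup (Fin 3))) ↔
      ∃ i, c = TorsTower37.evF (TorsW2.bdW i) := fun c => by
    simp [Fin.exists_fin_succ, TorsW2.bdW, TorsTower37.evF, TorsTower37.fL, mul_assoc]
  refine ⟨TorsTower37.sig1, TorsTower37.sig2, TorsTower37.psi, _, ⟨?_, ?_, ?_⟩, ⟨?_, ?_, ?_⟩,
    rfl, rfl, fun c hc => ?_, fun x m hm h => ?_, TorsW2.mainC⟩
  iterate 6 simp [TorsTower37.sig1, TorsTower37.sig2]
  · obtain ⟨i, rfl⟩ := (hB c).1 hc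
    exact TorsW2.psi_bd i
  · obtain ⟨i, k, hk⟩ := TorsW2.periodic x m hm h
    exact ⟨_, (hB _).2 ⟨i, rfl⟩, k, hk⟩

end Pool.Agent.Results.MP_004c47_gt.CofinalTower
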