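import Pool.Agent.Lib.MP_004c47_gt.Octa37

/-! The mapping torus of the pseudo-Anosov braid `σ₁² σ₂⁻²` on the four-punctured sphere has a
tower of finite covers, each regular over the previous one, with trivial intersection of the
fundamental groups and torsion-free first homology at every stage. -/

namespace Pool.Agent.Results.MP_004c47_gt.SubnormalTower

theorem result :
    ∃ σ₁ σ₂ : MulAut (FreeGroup (Fin 3)),
      (σ₁ (FreeGroup.of 0) = FreeGroup.of 0 * FreeGroup.of 1 * (FreeGroup.of 0)⁻¹ ∧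
        σ₁ (FreeGroup.of 1) = FreeGroup.of 0 ∧ σ₁ (FreeGroup.of 2) = FreeGroup.of 2) ∧
      (σ₂ (FreeGroup.of 0) = FreeGroup.of 0 ∧
        σ₂ (FreeGroup.of 1) = FreeGroup.of 1 * FreeGroup.of 2 * (FreeGroup.of 1)⁻¹ ∧
        σ₂ (FreeGroup.of 2) = FreeGroup.of 1) ∧
      ∃ Γ : ℕ → Subgroup (SemidirectProduct (FreeGroup (Fin 3)) (Multiplicative ℤ)
          (zpowersHom (MulAut (FreeGroup (Fin 3))) (σ₁ ^ 2 * σ₂⁻¹ ^ 2))),
        (Γ 0).Normal ∧ (∀ n, (Γ n).FiniteIndex) ∧ (∀ n, Γ (n + 1) ≤ Γ n) ∧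
        (∀ n, ((Γ (n + 1)).subgroupOf (Γ n)).Normal) ∧ (⨅ n, Γ n) = ⊥ ∧
        Filter.Tendsto (fun n => (Γ n).index) Filter.atTop Filter.atTop ∧
        ∀ n, ∀ a : Abelianization (Γ n), IsOfFinOrder a → a = 1 := by
  refine ⟨TorsTower37.sig1, TorsTower37.sig2, ⟨?_, ?_, ?_⟩, ⟨?_, ?_, ?_⟩, TorsTower37.main⟩ <;>
    simp [TorsTower37.sig1, TorsTower37.sig2]

end Pool.Agent.Results.MP_004c47_gt.SubnormalTower
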